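import Mathlib
import Pool.Agent.Lib.helper15.Wild3
import Pool.Agent.Lib.helper15.Wild4

namespace Pool.Agent.Results.MP_fd6f9a_an.Counter

open Pool.Agent.Lib.helper15.Wild

theorem result :
    ∃ (A : Type) (_ : NonUnitalNormedCommRing A) (_ : NormedSpace ℂ A) (_ : IsScalarTower ℂ A A)
      (_ : SMulCommClass ℂ A A) (_ : CompleteSpace A),
      ¬ FiniteDimensional ℂ A ∧
      (∀ x : A, spectrum ℂ (Unitization.inr x : Unitization ℂ A) ⊆ {0}) ∧
      (∃ a : A, a ≠ 0 ∧ a ∈ closure {y | ∃ x : A, y = a * a * x}) ∧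
      ∀ b : ℝ → A, (∀ s t : ℝ, 0 < s → 0 < t → b s * b t = b (s + t)) →
        ContinuousOn b (Set.Ioi 0) → ∀ t : ℝ, 0 < t → b t = 0 := by
  refine ⟨R w0, inferInstance, inferInstance, inferInstance, inferInstance, inferInstance,
    inf_dim _, radical _, ?_, fun b h1 h2 t ht => no_cont b (fun s t hs ht => (h1 s t hs ht).symm)
      h2 ht⟩
  refine classV (radical _) (fun k => sg w0 (1 / 2 * (1 / 4) ^ k)) (fun k => ?_)
    (sg_ne _ (by norm_num) (by norm_num))
  have h : (0 : ℝ) < 1 / 2 * (1 / 4) ^ (k + 1) := by positivity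
  rw [← sg_add _ _ _ h h, ← sg_add _ _ _ (by positivity) (by positivity)]
  congr 1
  ring

end Pool.Agent.Results.MP_fd6f9a_an.Counter
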